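import Pool.Agent.R318.TT.J

/-! # The averages of the traces of Frobenius for random members of linear systems, with a square root error

Let `k` be a number field, `W = Spec A` an affine scheme of finite type over the ring of integers of `k`, of dimension
`m + 1` over `k`, and let `x 1, …, x d` and `y` be functions on `W` (elements of `A`), such that the map `(x 1 : … : x d : y)`
from the complement `U` of the common zeros of the `x j` to the projective space is quasi-finite (or nearly so, see the
hypothesis). For integers `v` let `V` be the member `v 1 x 1 + ⋯ + v d x d = y` of the linear system, of dimension `m`. The ring
homomorphisms from `A` to `ZMod p` are the points of `W` over the residue fields of the primes of degree one of `k` above `p`.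
Let `N` be the number of those in `V` and `U` (`memN`), and `a = (N - #U / p) / p ^ (m / 2)` (`devL`).

For `m = 2` let `V'` be a smooth projective compactification of `V`, and let `W'` be one of `W`, with the base curves of the
linear system blown up, such that the components of the boundary of `W'` have irreducible intersections with `V'`. Then
Deligne's theorem gives `a = ∑ (b(V') - b(W')) / p + O(p ^ (- 1 / 2))`, where `b` is the trace of Frobenius on `H²`, and the sum
runs over the primes of degree one above `p`. Since the other primes are negligible, the averages of the problem for `V'` and
`W'` agree up to `O(T ^ (- 1 / 2 + δ))` if the sum of the `a log p`, `p ≤ T`, is `O(T ^ (1 / 2 + δ))`. This is the size of the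
error term for the generalised Riemann hypothesis, and it is in accordance with the conjecture, since the restriction of the
Neron-Severi groups is an isomorphism for a general member of a sufficiently ample linear system (Lefschetz, Noether). For
instance, for the surfaces in the projective space of a large degree that contain `r` given irreducible curves the average
is `1 + r`.

The theorem proves this for members with coefficients in sparse families of integers: `v j = c j + κ j w j`, where `w j` are
independent random integers with `k` independent digits in base `b`, whose distributions are arbitrary, except that two
independent copies of a digit differ with a probability of at least `η`. With probability at least `1 - C X ^ (- δ)`, for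
EVERY `x ≥ X` with `x ^ W ≤ b ^ k` the sum of the `a log p` over the primes `p ≤ x` with `|a| ≤ p ^ ((1 - δ) / 2)` is at most
`x ^ (1 / 2 + δ)`, and at most `x ^ (2 δ)` primes up to `x` do not have this property (for varieties as above the `a` are
bounded for the primes of good reduction). The constants do not depend on `A`, but only on the bound for the number of pairs
of points with the same image.

Proof: for a fixed prime the points of `U` are in the random member with probability `1 / p`, and this is independent for two
points with non-proportional values of the `x j`, so the `a` have mean value zero and bounded second moment over all `v`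
modulo `p`. The random integers are equidistributed modulo the products of two primes outside a very sparse set of moduli.
This gives the second moments of the sums over the primes in dyadic intervals; the maximum over all `x` is controlled by
dyadic chaining.

Definitions used: `memN`, `allN`, `devL`, `BoundedL` (file `I.lean`), `Bounded` (file `H.lean`), `small`, `large`, `CloseT`
(file `G.lean`) in `Pool.Agent.R318.TT`, and `PrV`, `Dist`, `arrays`, `wt`, `dval` in `Pool.Agent.R318.ST` (files `Fin1.lean`,
`Dig.lean`).

Library: helper459 (equidistribution of families given by digits, dyadic chaining). -/

set_option autoImplicit false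

namespace Pool.Agent.Results.MP_4589ac_nt.LinearSystems

open Pool.Agent.R318.ST Pool.Agent.R318.TT

/-- **Theorem.** (1) The hypothesis `BoundedL` is true for the functions `1, x 1, …, x M` and `y`, if `Spec A` has at most
`B p ^ (m + 1)` points over the field with `p` elements and at most `B` of them have given values of the `x j` and `y`
(`Bounded`; hyperplane sections); this is true for the coordinates of the affine space and any polynomial `y`.

(2) Let `b ≥ 2`, `η > 0` and `0 < δ ≤ 1 / 2`. There is `W` such that for all `d`, all nonzero integers `κ j` and all `B` there
are `C` and `X₀` with the following property. Let `A` be a commutative ring, `x 1, …, x d` and `y` elements of `A`, such that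
for every prime `p` the set of the ring homomorphisms from `A` to `ZMod p` is finite and there are at most `B p ^ (m + 1)`
pairs of ring homomorphisms that are not zero at all `x j` and have proportional values at the `x j` and `y` (`BoundedL`). For
all `k`, all `X ≥ X₀`, all integers `c j` and all distributions `u j` of `k` digits in base `b` such that two independent
copies of a digit differ with probability at least `η` (`Dist`), the integers `v j = c j + κ j w j`, where `w j` are
independent integers with independent digits with the distributions `u j`, satisfy, with an exceptional probability of at
most `C X ^ (- δ)`: for EVERY `x ≥ X` with `x ^ W ≤ b ^ k` the sum of the `a log p` over the primes `p ≤ x` with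
`|a| ≤ p ^ ((1 - δ) / 2)`, where `a` is the normalised deviation `devL` for the number of the points of the member
`∑ v j x j = y` over the field with `p` elements outside the common zeros of the `x j`, is at most `x ^ (1 / 2 + δ)` in
absolute value, and at most `x ^ (2 δ)` primes up to `x` satisfy `|a| > p ^ ((1 - δ) / 2)` (`CloseT`). -/
theorem result :
    ((∀ (A : Type) [CommRing A] (M B m : ℕ) (x : Fin M → A) (y : A), Bounded B m x y →
        BoundedL (B * B) m (Fin.cons 1 x : Fin (M + 1) → A) y) ∧
      ∀ (m : ℕ) (y : MvPolynomial (Fin (m + 1)) ℤ), Bounded 1 m (fun j => MvPolynomial.X j) y) ∧
    ∀ (b : ℕ), 2 ≤ b → ∀ (η : ℝ), 0 < η → ∀ (δ : ℝ), 0 < δ → δ ≤ 1 / 2 → ∃ W : ℕ, 1 ≤ W ∧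
    ∀ (d : ℕ) (κ : Fin d → ℤ), (∀ j, κ j ≠ 0) → ∀ B : ℕ, ∃ (C : ℝ) (X₀ : ℕ), 0 < C ∧
    ∀ (A : Type) [CommRing A] (m : ℕ) (x : Fin d → A) (y : A), BoundedL B m x y → ∀ k X : ℕ, X₀ ≤ X →
    ∀ (c : Fin d → ℤ) (u : Fin d → ℕ → ℕ → ℝ), (∀ j, Dist b k η (u j)) →
    PrV b k u (fun g => ¬ CloseT δ X W (b ^ k) (devL m x y (fun j => c j + κ j * (dval b (g j) : ℕ)))) ≤
      C * (X : ℝ) ^ (-δ) :=
  ⟨⟨fun A _ M B m x y h => boundedL_of B m x y h, bounded_affine⟩, fun b hb η hη δ hδ hδ1 => mainL b hb η hη δ hδ hδ1⟩

end Pool.Agent.Results.MP_4589ac_nt.LinearSystems
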