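import Pool.Agent.R461.TB.Main

/-!
# The Tauberian Tate conjecture for the products of any variety with the members of a family

`K` is a number field and `(Y_b)` any family of smooth projective varieties over `K`, finite or infinite,
such that the averages `T⁻¹ ∑_{q_v ≤ T} a_v(Y_b) a_v(Y_b') log(q_v) / q_v` of the traces on `H¹` tend to
`0` for `b ≠ b'` and to a number `e_b > 0` for `b = b'` (`IsFamily`).  This is known, with `e_b = 1`, for
the family of all elliptic curves over `ℚ` up to isogeny, and with `e_b` the rank of the endomorphism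
ring for all abelian varieties over `ℚ` attached to newforms of weight 2.

`X` is an arbitrary smooth projective variety over `K`.  By Faltings' theorem
`rank NS(X × Y_b) = rank NS(X) + rank NS(Y_b) + n_b e_b` for abelian varieties `Y_b` which are simple
with endomorphism rings of rank `e_b` and pairwise not isogenous, where `n_b` is the multiplicity of
`Y_b` in the Picard variety of `X`, up to isogeny and duality.  The question for the products says that
the differences `excess` of the averages for `X × Y_b` and for `X` and `Y_b` tend to `n_b e_b`.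
The definitions are in `Pool.Agent.R461.TB.Defs`, `Pool.Agent.W353.SP.NDefs` and
`Pool.Agent.W353.EF.Defs`.
-/

set_option autoImplicit false

namespace Pool.Agent.Results.MP_4589ac_nt.ProductsWithFamilies

open NumberField IsDedekindDomain Filter Topology Pool.Agent.R461.TB

/-- **Bessel's inequality for the defects of the Tauberian Tate conjecture.**  Let `(Y_b)` be a family
as above, `X` any smooth projective variety over `K`, `n_b`, almost all zero, numbers such that `H¹(X)`
contains the sum of the `n_b` copies of the `H¹(Y_b)`, and `r = b_1(X) - ∑ n_b b_1(Y_b)` the dimension of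
the complement.  Let `excess_b(T)` be the average for `X × Y_b` minus the averages for `X` and `Y_b`.

1. For every finite set `S` of indices and `η > 0`, for all large `T`,
`∑_{b ∈ S} (excess_b(T) - n_b e_b)² / e_b ≤ r² + η`.

2. For `δ > 0` at most `r² / δ²` indices `b` satisfy `|excess_b(T) - n_b e_b| ≥ δ √e_b` for all
large `T`.

3. If the family is countable, every sequence `T_j → ∞` has a subsequence along which `excess_b(T)`
converges for all `b`, to limits `n_b e_b + y_b` with `∑_b y_b² / e_b ≤ r²`.

4. If `r = 0`, then `excess_b(T)` tends to `n_b e_b` for all `b`. -/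
theorem result (K : Type) [Field K] [NumberField K] (κ : Type) (Y : κ → Var K) (e : κ → ℝ)
    (hY : IsFamily Y e) (X : Var K) (n : κ →₀ ℕ) (R' : Finset (HeightOneSpectrum (𝓞 K)))
    (hn : Contains X Y n R') (Z : κ → Var K) (hZ : ∀ b, IsProduct (Z b) X (Y b)) :
    (∀ (S : Finset κ) (η : ℝ), 0 < η → ∀ᶠ T : ℕ in atTop,
      ∑ b ∈ S, (excess (Z b) X (Y b) T - n b * e b) ^ 2 / e b ≤ rest X Y n ^ 2 + η) ∧
    (∀ δ : ℝ, 0 < δ →
      {b : κ | ∀ᶠ T : ℕ in atTop,
        δ * √(e b) ≤ |excess (Z b) X (Y b) T - n b * e b|}.Finite ∧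
      ({b : κ | ∀ᶠ T : ℕ in atTop,
        δ * √(e b) ≤ |excess (Z b) X (Y b) T - n b * e b|}.ncard : ℝ) ≤
          rest X Y n ^ 2 / δ ^ 2) ∧
    (Countable κ → ∀ T : ℕ → ℕ, Tendsto T atTop atTop →
      ∃ φ : ℕ → ℕ, StrictMono φ ∧ ∃ y : κ → ℝ,
        (∀ b, Tendsto (fun j => excess (Z b) X (Y b) (T (φ j))) atTop (𝓝 (n b * e b + y b))) ∧
        Summable (fun b => y b ^ 2 / e b) ∧ ∑' b, y b ^ 2 / e b ≤ rest X Y n ^ 2) ∧
    (rest X Y n = 0 → ∀ b, Tendsto (excess (Z b) X (Y b)) atTop (𝓝 (n b * e b))) := by
  classical
  refine ⟨fun S η hη => main hY hn hZ S hη, fun δ hδ => ?_, fun hκ T hT => ?_, fun h0 b => ?_⟩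
  · obtain ⟨h1, h2⟩ := count_large hY hn hZ hδ
    refine ⟨h1, ?_⟩
    rw [le_div_iff₀ (by positivity)]
    exact h2
  · exact subseq hY hn hZ T hT
  · have he := (hY.1 b).1
    rw [Metric.tendsto_nhds]
    intro ε hε
    have hη : 0 < ε ^ 2 / (2 * e b) := by positivity
    filter_upwards [main hY hn hZ {b} hη] with T hT
    rw [Finset.sum_singleton, h0, div_le_iff₀ he] at hT
    have h1 : (0 ^ 2 + ε ^ 2 / (2 * e b)) * e b = ε ^ 2 / 2 := by
      field_simp
      ring
    rw [h1] at hT
    rw [Real.dist_eq]
    refine abs_lt_of_sq_lt_sq ?_ hε.le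
    have : 0 < ε ^ 2 := by positivity
    linarith

end Pool.Agent.Results.MP_4589ac_nt.ProductsWithFamilies
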