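import Pool.Agent.R376.RandK

/-!
# The Tauberian Tate conjecture and sparse random sets of primes

For a smooth projective variety `V` over a number field `k` the Tauberian Tate conjecture predicts that

`T⁻¹ ∑_{q_v ≤ T} b_v log q_v / q_v → rank NS(V/k)`,   `b_v = tr (Frob_v | H²)`.

Let `0 < κ ≤ 1/2` (as small as one likes) and let `S` be a random set of natural numbers: `n ∈ S` with
the probability `(n + 1) ^ (κ - 1)`, independently. Almost every `S` has only `O(n ^ κ)` elements up to
`n`. For almost every `S` the following holds simultaneously for all members of any given countable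
family of pairs `(k, V)` (up to isomorphism there are only countably many pairs): the averages

`T⁻¹ ∑_{q_v ≤ T, q_v prime, q_v ∈ S} (q_v + 1) ^ (1 - κ) b_v log q_v / q_v`

over the primes `v` of degree one over the prime numbers in `S` differ from the averages of the
conjecture by `O(T ^ (-η))` for every `η < κ/2`. So for every `r` the conjecture's limit exists and is
equal to `r` if and only if this is true for the averages over the sparse set, and the rates of the
convergence are the same up to `O(T ^ (-η))`.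
-/

set_option autoImplicit false

namespace Pool.Agent.Results.MP_4589ac_nt.SparseRandomAverages

open NumberField IsDedekindDomain Filter Topology MeasureTheory ProbabilityTheory

/-- The probability `(n + 1) ^ (κ - 1)`. -/
noncomputable def density (κ : ℝ) (n : ℕ) : ℝ := ((n : ℝ) + 1) ^ (κ - 1)

/-- The law of the random set `S ⊆ ℕ` which contains `n` with the probability `density κ n`
(truncated to `[0, 1]`), independently for all `n`; a set is a sequence in `Bool`. -/
noncomputable def randomSet (κ : ℝ) : Measure (ℕ → Bool) :=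
  Measure.infinitePi fun n =>
    bernoulliMeasure true false (Set.projIcc (0 : ℝ) 1 zero_le_one (density κ n))

variable {k : Type} [Field k] [NumberField k]

/-- The number `q_v`. -/
noncomputable def q (v : HeightOneSpectrum (𝓞 k)) : ℕ := Ideal.absNorm v.asIdeal

/-- `|b_v| ≤ C q_v` for all but finitely many `v`; by Deligne's theorem this is true for the traces
of the Frobenius on `H²`. -/
def TraceBound (b : HeightOneSpectrum (𝓞 k) → ℝ) : Prop :=
  ∃ C : ℝ, ∀ᶠ v in cofinite, |b v| ≤ C * q v

/-- `T⁻¹ ∑_{q_v ≤ T} b_v log q_v / q_v`. -/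
noncomputable def average (b : HeightOneSpectrum (𝓞 k) → ℝ) (T : ℝ) : ℝ :=
  T⁻¹ * ∑' v, if (q v : ℝ) ≤ T then b v * Real.log (q v) / q v else 0

/-- `T⁻¹ ∑_{q_v ≤ T, q_v prime, q_v ∈ S} b_v log q_v / (q_v · density κ q_v)`. -/
noncomputable def sparseAverage (b : HeightOneSpectrum (𝓞 k) → ℝ) (κ : ℝ) (S : ℕ → Bool) (T : ℝ) :
    ℝ :=
  T⁻¹ * ∑' v, if (q v : ℝ) ≤ T then
    (if (q v).Prime ∧ S (q v) = true then b v * Real.log (q v) / q v / density κ (q v) else 0) else 0

/-- the bound holds for all places with another constant -/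
theorem bound_all {b : HeightOneSpectrum (𝓞 k) → ℝ} (hb : TraceBound b) :
    ∃ C : ℝ, 0 ≤ C ∧ ∀ v, |b v| ≤ C * q v := by
  obtain ⟨C, hC⟩ := hb
  have hfin : {v | ¬ |b v| ≤ C * q v}.Finite := hC
  refine ⟨|C| + ∑ v ∈ hfin.toFinset, |b v|, by positivity, fun v => ?_⟩
  have hq : (1 : ℝ) ≤ q v := by
    have h := Pool.Agent.W350.EdgeNF.hN v
    have h2 : q v = Pool.Agent.H921R2.TatePole.nm v := rfl
    rw [h2]
    exact_mod_cast h
  have hsum : 0 ≤ ∑ v ∈ hfin.toFinset, |b v| := Finset.sum_nonneg fun _ _ => abs_nonneg _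
  by_cases h : |b v| ≤ C * q v
  · refine h.trans (mul_le_mul_of_nonneg_right ?_ (by linarith))
    have := le_abs_self C
    linarith
  · have h1 : |b v| ≤ ∑ v ∈ hfin.toFinset, |b v| :=
      Finset.single_le_sum (f := fun v => |b v|) (fun _ _ => abs_nonneg _)
        (hfin.mem_toFinset.2 h)
    have h2 : |b v| ≤ |C| + ∑ v ∈ hfin.toFinset, |b v| := by
      have := abs_nonneg C
      linarith
    refine h2.trans ?_
    have h3 : 0 ≤ |C| + ∑ v ∈ hfin.toFinset, |b v| := by positivity
    nlinarith

/-- **The Tauberian Tate conjecture can be read off from a sparse random set of primes.** -/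
theorem result (κ : ℝ) (h0 : 0 < κ) (h1 : κ ≤ 1 / 2) {ι : Type} [Countable ι] (k : ι → Type)
    [∀ i, Field (k i)] [∀ i, NumberField (k i)] (b : ∀ i, HeightOneSpectrum (𝓞 (k i)) → ℝ)
    (hb : ∀ i, TraceBound (b i)) :
    ∀ᵐ S ∂(randomSet κ),
      -- `S` has at most `C (n + 1)^κ` elements up to `n`
      (∃ C : ℝ, ∀ n : ℕ, (((Finset.range (n + 1)).filter fun m => S m = true).card : ℝ) ≤
        C * ((n : ℝ) + 1) ^ κ) ∧
      ∀ i : ι,
        -- the difference of the averages
        (∀ η : ℝ, η < κ / 2 → ∃ A : ℝ, ∀ T : ℝ, 1 ≤ T →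
          |sparseAverage (b i) κ S T - average (b i) T| ≤ A * T ^ (-η)) ∧
        -- the limits
        ∀ r : ℝ, Tendsto (average (b i)) atTop (𝓝 r) ↔
          Tendsto (sparseAverage (b i) κ S) atTop (𝓝 r) := by
  choose C hC0 hC using fun i => bound_all (hb i)
  have h2 : ∀ᵐ S ∂(R376.Rnd.lawS (R376.Rnd.th κ)), _ := (R376.Rnd.thin_card h0 (by linarith)).and
    (ae_all_iff.2 fun i => R376.Rnd.av_main h0 h1 (hC0 i) (hC i))
  refine h2.mono ?_
  rintro S ⟨hS1, hS2⟩
  refine ⟨hS1, fun i => ?_⟩
  have h3 : ∀ η : ℝ, η < κ / 2 → ∃ A : ℝ, ∀ T : ℝ, 1 ≤ T →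
      |sparseAverage (b i) κ S T - average (b i) T| ≤ A * T ^ (-η) := hS2 i
  refine ⟨h3, fun r => ?_⟩
  obtain ⟨A, hA⟩ := h3 (κ / 4) (by linarith)
  have h4 : Tendsto (fun T => sparseAverage (b i) κ S T - average (b i) T) atTop (𝓝 0) := by
    refine squeeze_zero_norm' (a := fun T : ℝ => A * T ^ (-(κ / 4))) ?_ ?_
    · filter_upwards [eventually_ge_atTop (1 : ℝ)] with T hT
      exact hA T hT
    · have := (tendsto_rpow_neg_atTop (show 0 < κ / 4 by linarith)).const_mul A
      rwa [mul_zero] at this
  constructor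
  · intro h
    have := h.add h4
    rw [add_zero] at this
    exact this.congr fun T => by ring
  · intro h
    have := h.sub h4
    rw [sub_zero] at this
    exact this.congr fun T => by ring

end Pool.Agent.Results.MP_4589ac_nt.SparseRandomAverages
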