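import Pool.Agent.R385.TL.Laws
import Pool.Agent.W353.SP.NDefs

/-!
# The Tauberian Tate conjecture for divisors and the frequency of large values

`X` is a smooth projective variety over a number field `K`, of dimension `d`, with the second Betti
number `N`, `F` is a number field containing `K`, `R` a finite set of primes of `F`, and `b_v` the trace
of the geometric Frobenius on `H²(X)` for the primes `v` of `F` outside `R` (`IsTrace`).  Let
`U(t) = ∑ (N + b_v / q_v) cos(t log q_v) / q_v`.

`RareF κ U`: for some `c > 0` and all large `V`, the set where `U ≥ V` has, in every interval of length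
at least `T₀(V)`, a proportion at most `exp(-exp(c exp(V / κ)))`.  `FreqF κ U`: the proportion is at
least this, for some `c > 0`.  `TailExponent κ U`: `RareF κ' U` for all `κ' > κ`, and `FreqF κ' U` for all
`κ' < κ`.
-/

set_option autoImplicit false

namespace Pool.Agent.Results.MP_4589ac_nt.TailExponents

open NumberField IsDedekindDomain Filter Topology
open Pool.Agent.W353.SP (IsTrace average)
open Pool.Agent.R385.FG (cosSeries)
open Pool.Agent.R385.TL

/-- the numbers `b_v / q_v` -/
noncomputable def normalised {F : Type} [Field F] [NumberField F] (b : HeightOneSpectrum (𝓞 F) → ℂ)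
    (v : HeightOneSpectrum (𝓞 F)) : ℝ := (b v).re / (Ideal.absNorm v.asIdeal : ℝ)

/-- The laws of `TailLaws` for the numbers `b_v / q_v`; and if the averages
`T⁻¹ ∑_{q_v ≤ T} b_v (log q_v) / q_v` have a limit, then it is the number `r` such that `N + r` is the
tail exponent of `U`. -/
def Statement {F : Type} [Field F] [NumberField F] (N : ℕ) (R : Finset (HeightOneSpectrum (𝓞 F)))
    (b : HeightOneSpectrum (𝓞 F) → ℂ) : Prop :=
  TailLaws R (normalised b) N ∧
  Decides N (cosSeries R fun v => N + normalised b v)
    (fun r => Tendsto (average 1 R b) atTop (𝓝 r))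

theorem result (K : Type) [Field K] [NumberField K] (l d N : ℕ)
    (X : Set (MvPolynomial (Fin l) (𝓞 K)))
    (F : Type) [Field F] [NumberField F] [Algebra K F] (R : Finset (HeightOneSpectrum (𝓞 F)))
    (b : HeightOneSpectrum (𝓞 F) → ℂ) (hb : IsTrace X d 2 N R b) :
    (∀ v, v ∉ R → |normalised b v| ≤ N) ∧ Statement N R b := by
  have h1 : ∀ v, v ∉ R → |normalised b v| ≤ N := by
    intro v hv
    obtain ⟨α, ⟨β, hβ1, hβ2, _⟩, h2⟩ := hb v hv
    have h3 : ∀ j, ‖α j‖ = (Ideal.absNorm v.asIdeal : ℝ) := by
      intro j
      have h4 := hβ2 2 (α j) (by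
        rw [hβ1]
        exact Multiset.mem_map.2 ⟨j, Finset.mem_univ_val j, rfl⟩)
      rw [h4]
      norm_num
    have h5 : ‖b v‖ ≤ N * (Ideal.absNorm v.asIdeal : ℝ) := by
      rw [h2]
      refine (norm_sum_le _ _).trans ?_
      simp only [h3]
      rw [Finset.sum_const, Finset.card_univ, Fintype.card_fin, nsmul_eq_mul]
    unfold normalised
    rw [abs_div, abs_of_nonneg (a := (Ideal.absNorm v.asIdeal : ℝ)) (Nat.cast_nonneg _)]
    refine div_le_of_le_mul₀ (Nat.cast_nonneg _) (Nat.cast_nonneg _) ?_
    exact (Complex.abs_re_le_norm _).trans h5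
  refine ⟨h1, tailLaws h1 (Nat.cast_nonneg N), ?_⟩
  have h2 := decides_average h1 (Nat.cast_nonneg N)
  have h3 : average 1 R b = Pool.Agent.W353.FB.average R (normalised b) := by
    funext T
    unfold average Pool.Agent.W353.FB.average normalised
    congr 1
    refine finsum_congr fun v => finsum_congr fun _ => ?_
    rw [pow_one]
    ring
  rw [h3]
  exact h2

end Pool.Agent.Results.MP_4589ac_nt.TailExponents
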