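import Pool.Agent.R401.Ue

/-!
# The Tauberian Tate conjecture for divisors: transfer by congruences modulo the norms

Let `X` be a smooth projective variety over a number field `K` and let `T` be the quotient of
`H²(X ⊗ K̄, ℚ_p(1))` by the classes of divisors; let `N` be the action of the Galois group on
`NS(X ⊗ K̄)` modulo torsion. For almost all places `v` let `b v` be the integer
`tr (F_v | H²(X ⊗ K̄, ℚ_p))`, where `F_v` is the geometric Frobenius element. By Deligne
`|b v| ≤ b₂ N(v)`.

We say that `T` has no Tate subquotient if there is no open subgroup `U` of the Galois group such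
that the restriction of `T` to `U` has a nonzero subquotient on which `U` acts trivially. This holds
if the Tate conjecture for divisors holds for `X` over all finite extensions of `K` and
`H²(X ⊗ K̄, ℚ_p)` is semisimple, for example for abelian varieties and products of curves (Faltings)
and for K3 surfaces.

**Theorem.** Let `X` and `Y` be two such varieties, `s = dim T_X`, `t = dim T_Y`. Let
`θ (s² + t²) < 1` and for arbitrarily large `x` let

  `tr (F_v | H²(X)) ≡ tr (F_v | H²(Y))` modulo `N(v)`

for all the places `v` of `K` with `N(v) ≤ x` except for at most `θ π(x)`.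

(1) For all finite extensions `F` of `K` the difference of the averages

  `x⁻¹ ∑_{N(v) ≤ x} b_v log N(v) / N(v)`

for `X ⊗ F` and for `Y ⊗ F` converges. So the limit of the question exists for `X ⊗ F` if and only if
it exists for `Y ⊗ F`.

(2) Let `T_Y` have no Tate subquotient. Then `t ≤ s`; `T_X` has no Tate subquotient if and only if
`s = t`; and in this case the limit in (1) is `rank NS(X ⊗ F) - rank NS(Y ⊗ F)`. So the Tauberian
Tate conjecture holds for `X ⊗ F` if and only if it holds for `Y ⊗ F`.

The congruence does not involve the Néron-Severi groups: it says that the Frobenius elements have the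
same trace on `H²(X_v, O)` and on `H²(Y_v, O)`, in `ℤ/N(v)`; if `X` and `Y` are surfaces with `b₁ = 0`
it says that the numbers of points over the residue field of `v` are congruent modulo `N(v)`.

Proof. The function `tr T_X - tr T_Y` has the rational values
`(b v - b' v) / N(v) - (tr N_X(F_v) - tr N_Y(F_v))` at the Frobenius elements, of bounded size and
denominator one for most `v`; by Chebotarev's theorem for closed sets and the linear independence of the
matrix coefficients it is locally constant (`Pool.Agent.R401.Tr7.one`). If `T_Y` has no Tate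
subquotient, then there is an element of the group ring of a small open subgroup, of augmentation `1`,
which acts as `0` on `T_Y`; if `s = t` it acts nilpotently on `T_X`, and `tr T_X = tr T_Y` follows. The
rest is Chebotarev's theorem for the finite groups `N_X(G)`, `N_Y(G)`, and the prime number theorem.
-/

set_option autoImplicit false

namespace Pool.Agent.Results.MP_4589ac_nt.TransferByCongruences

open NumberField IsDedekindDomain Filter Matrix Topology

/-- the absolute Galois group of the field `K`, with the Krull topology -/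
abbrev AbsGal (K : Type) [Field K] : Type := Gal(AlgebraicClosure K/K)

section
variable {K : Type} [Field K] [NumberField K]

/-- `g` is an (arithmetic) Frobenius element at a maximal ideal `Q` of the ring of all algebraic
integers which lies above the finite place `v` of `K`. -/
def IsFrobenius (v : HeightOneSpectrum (𝓞 K)) (g : AbsGal K) : Prop :=
  ∃ Q : Ideal (𝓞 (AlgebraicClosure K)), Q.IsMaximal ∧
    Q.comap (algebraMap (𝓞 K) (𝓞 (AlgebraicClosure K))) = v.asIdeal ∧
    ∀ x : 𝓞 (AlgebraicClosure K), g • x - x ^ Ideal.absNorm v.asIdeal ∈ Q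

/-- the matrix of `g` -/
noncomputable def mat {R : Type} [CommRing R] {n : ℕ} (V : AbsGal K →* GL (Fin n) R)
    (g : AbsGal K) : Matrix (Fin n) (Fin n) R := (V g : GL (Fin n) R)

/-- The data which are given by the second cohomology of a smooth projective variety `X` over `K`:
`N` is the action on the Néron-Severi group of `X ⊗ K̄` modulo torsion (it factors through a finite
quotient), `T` is the action on the quotient of `H²(X ⊗ K̄, ℚ_p(1))` by the classes of divisors, the
integer `b v` is the trace of the geometric Frobenius element on `H²(X ⊗ K̄, ℚ_p)` for `v` outside the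
finite set `B`, its absolute value is at most a multiple of the norm of `v`; and the trace of the
Frobenius elements in `N` does not depend on the choice of the Frobenius element. -/
def IsSecondCohomology {p : ℕ} [Fact p.Prime] {r s : ℕ} (B : Set (HeightOneSpectrum (𝓞 K)))
    (N : AbsGal K →* GL (Fin r) ℤ) (T : AbsGal K →* GL (Fin s) ℚ_[p])
    (b : HeightOneSpectrum (𝓞 K) → ℤ) : Prop :=
  B.Finite ∧ IsOpen (N.ker : Set (AbsGal K)) ∧ Continuous T ∧
  (∃ C : ℕ, ∀ v, v ∉ B → |b v| ≤ C * Ideal.absNorm v.asIdeal) ∧
  ∀ v, v ∉ B → (p : 𝓞 K) ∉ v.asIdeal → ∃ a : ℤ, ∀ g, IsFrobenius v g →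
    (mat N g⁻¹).trace = a ∧
    (b v : ℚ_[p]) = Ideal.absNorm v.asIdeal * ((a : ℚ_[p]) + (mat T g⁻¹).trace)

/-- `T` has no Tate subquotient: there is no open subgroup `U` with a stable subspace `Y` and a
nonzero equivariant linear map from `Y` to the trivial representation of `U`. -/
def NoTateSubquotient {p : ℕ} [Fact p.Prime] {s : ℕ} (T : AbsGal K →* GL (Fin s) ℚ_[p]) : Prop :=
  ∀ U : Subgroup (AbsGal K), IsOpen (U : Set (AbsGal K)) →
    ¬ ∃ (Y : Submodule ℚ_[p] (Fin s → ℚ_[p])) (f : (Fin s → ℚ_[p]) →ₗ[ℚ_[p]] ℚ_[p]),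
      (∀ g ∈ U, ∀ y ∈ Y, mat T g *ᵥ y ∈ Y) ∧ (∃ y ∈ Y, f y ≠ 0) ∧
      ∀ g ∈ U, ∀ y ∈ Y, f (mat T g *ᵥ y) = f y

/-- the space of the classes which are fixed by the Galois group -/
def invariants {r : ℕ} (N : AbsGal K →* GL (Fin r) ℤ) : Submodule ℚ (Fin r → ℚ) where
  carrier := {x | ∀ g, (mat N g).map (Int.castRingHom ℚ) *ᵥ x = x}
  zero_mem' := fun _ => Matrix.mulVec_zero _
  add_mem' := fun {x y} hx hy g => by rw [Matrix.mulVec_add, hx g, hy g]
  smul_mem' := fun c x hx g => by rw [Matrix.mulVec_smul, hx g]

/-- the rank of `NS(X)`, the group of the classes which are defined over `K` -/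
noncomputable def rankNS {r : ℕ} (N : AbsGal K →* GL (Fin r) ℤ) : ℕ :=
  Module.finrank ℚ (invariants N)

/-- the averages `x⁻¹ ∑_{v ∉ B, N(v) ≤ x} b_v log N(v) / N(v)` -/
noncomputable def average (B : Set (HeightOneSpectrum (𝓞 K))) (b : HeightOneSpectrum (𝓞 K) → ℤ)
    (x : ℕ) : ℝ :=
  (x : ℝ)⁻¹ * ∑ᶠ v ∈ {v : HeightOneSpectrum (𝓞 K) | v ∉ B ∧ Ideal.absNorm v.asIdeal ≤ x},
    (b v : ℝ) * Real.log (Ideal.absNorm v.asIdeal : ℝ) / (Ideal.absNorm v.asIdeal : ℝ)

end

/-- **Transfer by congruences.** -/
theorem result {K : Type} [Field K] [NumberField K] (p : ℕ) [Fact p.Prime] {r s r' t : ℕ}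
    (B : Set (HeightOneSpectrum (𝓞 K)))
    -- the variety `X`
    (N : AbsGal K →* GL (Fin r) ℤ) (T : AbsGal K →* GL (Fin s) ℚ_[p])
    (b : HeightOneSpectrum (𝓞 K) → ℤ) (hX : IsSecondCohomology B N T b)
    -- the variety `Y`
    (N' : AbsGal K →* GL (Fin r') ℤ) (T' : AbsGal K →* GL (Fin t) ℚ_[p])
    (b' : HeightOneSpectrum (𝓞 K) → ℤ) (hY : IsSecondCohomology B N' T' b')
    -- the congruences
    (θ : ℝ) (hθ : θ * (s ^ 2 + t ^ 2) < 1)
    (hc : ∃ᶠ x : ℕ in atTop, ({v : HeightOneSpectrum (𝓞 K) | Ideal.absNorm v.asIdeal ≤ x ∧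
      ¬ (Ideal.absNorm v.asIdeal : ℤ) ∣ b v - b' v}.ncard : ℝ) ≤ θ * Nat.primeCounting x) :
    (∀ (F : Type) [Field F] [NumberField F] (res : AbsGal F →* AbsGal K), Continuous res →
      ∀ (D : Set (HeightOneSpectrum (𝓞 F))) (c c' : HeightOneSpectrum (𝓞 F) → ℤ),
      IsSecondCohomology D (N.comp res) (T.comp res) c →
      IsSecondCohomology D (N'.comp res) (T'.comp res) c' →
      ∃ L : ℝ, Tendsto (fun x : ℕ => average D c x - average D c' x) atTop (𝓝 L)) ∧
    (NoTateSubquotient T' → t ≤ s ∧ (NoTateSubquotient T ↔ s = t) ∧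
    (s = t → ∀ (F : Type) [Field F] [NumberField F] (res : AbsGal F →* AbsGal K), Continuous res →
      ∀ (D : Set (HeightOneSpectrum (𝓞 F))) (c c' : HeightOneSpectrum (𝓞 F) → ℤ),
      IsSecondCohomology D (N.comp res) (T.comp res) c →
      IsSecondCohomology D (N'.comp res) (T'.comp res) c' →
      (∀ v, v ∉ D → (p : 𝓞 F) ∉ v.asIdeal → (Ideal.absNorm v.asIdeal : ℤ) ∣ c v - c' v) ∧
      Tendsto (fun x : ℕ => average D c x - average D c' x) atTop
        (𝓝 ((rankNS (N.comp res) : ℝ) - rankNS (N'.comp res))) ∧
      (Tendsto (average D c) atTop (𝓝 (rankNS (N.comp res))) ↔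
        Tendsto (average D c') atTop (𝓝 (rankNS (N'.comp res)))))) :=
  Pool.Agent.R401.Ue.main p B N T b hX N' T' b' hY θ hθ hc

end Pool.Agent.Results.MP_4589ac_nt.TransferByCongruences
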